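import Mathlib
import Pool.Agent.V11103.OmDefs
import Pool.Agent.V11103.OmSmall
import Pool.Agent.V11103.OmNT4

set_option autoImplicit false

open Filter Topology MeasureTheory
open scoped ENNReal

namespace Pool.Agent.Results.MP_696bea_an.OmegaSumOfSquaresSweeps

open Pool.Agent.V11103.Om

universe u

/-- For every non-atomic ergodic system there is a measurable set `A` such that, at almost every
point `x`, the averages over `1 ≤ m, n ≤ N` of `1_A (T^{Ω(m² + n²)} x)` have limsup `1` and
liminf `0`. The first part is for standard Borel spaces, where non-atomic means that points have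
measure zero; the second is for every probability space without atoms. -/
theorem result :
    (∀ (X : Type u) [MeasurableSpace X] [StandardBorelSpace X] (μ : Measure X)
      [IsProbabilityMeasure μ] (T : X → X), Ergodic T μ → (∀ x : X, μ {x} = 0) →
      ∃ A : Set X, MeasurableSet A ∧ ∀ᵐ x ∂μ,
        limsup (fun N : ℕ =>
          avg (fun m n => ArithmeticFunction.cardFactors (m ^ 2 + n ^ 2)) T A x N) atTop = 1 ∧
        liminf (fun N : ℕ =>
          avg (fun m n => ArithmeticFunction.cardFactors (m ^ 2 + n ^ 2)) T A x N) atTop = 0) ∧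
    (∀ (X : Type u) [MeasurableSpace X] (μ : Measure X) [IsProbabilityMeasure μ] (T : X → X),
      Ergodic T μ →
      (∀ D : Set X, MeasurableSet D → 0 < μ D →
        ∃ E : Set X, E ⊆ D ∧ MeasurableSet E ∧ 0 < μ E ∧ μ E < μ D) →
      ∃ A : Set X, MeasurableSet A ∧ ∀ᵐ x ∂μ,
        limsup (fun N : ℕ =>
          avg (fun m n => ArithmeticFunction.cardFactors (m ^ 2 + n ^ 2)) T A x N) atTop = 1 ∧
        liminf (fun N : ℕ =>
          avg (fun m n => ArithmeticFunction.cardFactors (m ^ 2 + n ^ 2)) T A x N) atTop = 0) :=
  ⟨fun _ _ _ _ _ _ hT h0 => sweep hT (small_of_standard h0) _ concentrated,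
    fun _ _ _ _ _ hT hna => sweep hT (small_of_atomless hna) _ concentrated⟩

end Pool.Agent.Results.MP_696bea_an.OmegaSumOfSquaresSweeps
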